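import Pool.Agent.VRing6.Nu.Chain

/-!
# The main induction with base cardinal `ν` (MP_2175e6_al, helper6)

The singular step is due to helper91.
-/

open MulOpposite Pool.Agent.VRing Cardinal

namespace Pool.Agent.VRing6.Nu

open Pool.Agent.VRing23 Pool.Agent.VRing6.Room

universe u

/-- Sets with room can be extended to treat any set of at most `κ` nonzero elements. -/
def ExtAll (C : ∀ (T : Type u) [Ring T], Prop) (ν κ₀ : Cardinal.{u}) (α : Type u)
    [LinearOrder α] (κ : Cardinal.{u}) : Prop :=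
  ∀ (T : Type u) [Ring T] [Nontrivial T], C T → Pr T → Rk ν κ₀ α T → ¬ RightPrimitive T →
    ∀ θ : Cardinal.{u}, ν ≤ θ → θ ≤ κ → ∀ Y : Set T, Proper Y → #Y ≤ θ →
      LargePr (Order.succ θ) Y → ∀ G : Set T, (∀ g ∈ G, g ≠ 0) → #G ≤ κ →
        ∃ Y' : Set T, Y ⊆ Y' ∧ Proper Y' ∧ Treats Y' G ∧ #Y' ≤ κ

lemma Treats.subset {T : Type u} [Ring T] {Y G G' : Set T} (h : G ⊆ G') (h' : Treats Y G') :
    Treats Y G := fun g hg => h' g (h hg)

lemma mk_iUnion_le_of {T ι : Type u} {κ : Cardinal.{u}} (hκ : ℵ₀ ≤ κ) (hι : #ι ≤ κ)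
    (S : ι → Set T) (hS : ∀ n, #(S n) ≤ κ) : #(⋃ n, S n) ≤ κ :=
  (mk_iUnion_le S).trans (mul_le_of_le hκ hι (ciSup_le' hS))

lemma proper_of_finite {T : Type u} [Ring T] {V : Set T}
    (h : ∀ s : Finset T, (s : Set T) ⊆ V → Proper (s : Set T)) : Proper V := by
  rw [proper_iff]
  intro h1
  obtain ⟨s, hs, h1s⟩ := Submodule.mem_span_finite_of_mem_span h1
  exact (proper_iff.mp (h s hs)) h1s

lemma finite_sub {T J : Type u} [LinearOrder J] (D : Set J) (Y1 : Set T) (Ys : J → Set T)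
    (h1 : ∀ j ∈ D, Y1 ⊆ Ys j) (h2 : ∀ i ∈ D, ∀ j ∈ D, i < j → Ys i ⊆ Ys j) (s : Finset T)
    (hs : ∀ t ∈ s, t ∈ Y1 ∨ ∃ j ∈ D, t ∈ Ys j) :
    (s : Set T) ⊆ Y1 ∨ ∃ j ∈ D, (s : Set T) ⊆ Ys j := by
  classical
  induction s using Finset.induction_on with
  | empty => exact Or.inl (by simp)
  | insert a s _ ih =>
    have hs' : ∀ t ∈ s, t ∈ Y1 ∨ ∃ j ∈ D, t ∈ Ys j := fun t ht =>
      hs t (Finset.mem_insert_of_mem ht)
    rcases ih hs' with h | ⟨j, hj, h⟩
    · rcases hs a (Finset.mem_insert_self a s) with ha | ⟨i, hi, ha⟩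
      · left
        rw [Finset.coe_insert, Set.insert_subset_iff]
        exact ⟨ha, h⟩
      · right
        refine ⟨i, hi, ?_⟩
        rw [Finset.coe_insert, Set.insert_subset_iff]
        exact ⟨ha, h.trans (h1 i hi)⟩
    · rcases hs a (Finset.mem_insert_self a s) with ha | ⟨i, hi, ha⟩
      · right
        refine ⟨j, hj, ?_⟩
        rw [Finset.coe_insert, Set.insert_subset_iff]
        exact ⟨h1 j hj ha, h⟩
      · right
        rcases lt_trichotomy i j with hij | rfl | hij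
        · refine ⟨j, hj, ?_⟩
          rw [Finset.coe_insert, Set.insert_subset_iff]
          exact ⟨h2 i hi j hj hij ha, h⟩
        · refine ⟨i, hi, ?_⟩
          rw [Finset.coe_insert, Set.insert_subset_iff]
          exact ⟨ha, h⟩
        · refine ⟨i, hi, ?_⟩
          rw [Finset.coe_insert, Set.insert_subset_iff]
          exact ⟨ha, h.trans (h2 j hj i hi hij)⟩

lemma exists_split {T ι : Type u} [Nonempty ι] (S : ι → Set T) (θ : Cardinal.{u}) (A : Set T)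
    (hA : #A ≤ max θ #(⋃ k, S k)) :
    ∃ ρ : T → ι, ∀ j, #{x | x ∈ A ∧ ρ x = j} ≤ max θ #(S j) := by
  classical
  rcases le_total (#(⋃ k, S k)) θ with h | h
  · rw [max_eq_left h] at hA
    refine ⟨fun _ => Classical.arbitrary ι, fun j => ?_⟩
    exact (mk_le_mk_of_subset fun x hx => hx.1).trans (hA.trans (le_max_left _ _))
  · rw [max_eq_right h] at hA
    obtain ⟨ψ⟩ := Cardinal.le_def _ _ |>.mp hA
    have hk : ∀ x : A, ∃ k, (ψ x : T) ∈ S k := fun x => Set.mem_iUnion.mp (ψ x).2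
    choose k hk using hk
    refine ⟨fun x => if h : x ∈ A then k ⟨x, h⟩ else Classical.arbitrary ι, fun j => ?_⟩
    refine le_trans ?_ (le_max_right _ _)
    have hmem : ∀ x : {x | x ∈ A ∧ (if h : x ∈ A then k ⟨x, h⟩ else Classical.arbitrary ι) = j},
        (ψ ⟨x.1, x.2.1⟩ : T) ∈ S j := by
      rintro ⟨x, hx, hxj⟩
      rw [dif_pos hx] at hxj
      have h1 := hk ⟨x, hx⟩
      rw [hxj] at h1
      exact h1
    refine mk_le_of_injective (f := fun x => (⟨(ψ ⟨x.1, x.2.1⟩ : T), hmem x⟩ : S j)) ?_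
    intro x y hxy
    have h2 : ((ψ ⟨x.1, x.2.1⟩ : (⋃ k, S k : Set T)) : T) =
        (ψ ⟨y.1, y.2.1⟩ : (⋃ k, S k : Set T)) := congrArg (fun z : S j => (z : T)) hxy
    have h3 := ψ.injective (Subtype.ext h2)
    have h4 : x.1 = y.1 := congrArg (fun z : A => (z : T)) h3
    exact Subtype.ext h4

/-- The singular step. -/
theorem ext_singular {C : ∀ (T : Type u) [Ring T], Prop} (hC : Good C)
    {ν κ₀ : Cardinal.{u}} (hν : ℵ₀ ≤ ν) {α : Type u} [LinearOrder α] [WellFoundedLT α]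
    (hα : #α ≤ ν) {κ : Cardinal.{u}} (hκκ : κ ≤ κ₀)
    (IHa : ∀ κ' : Cardinal.{u}, ν ≤ κ' → κ' < κ → AllTreat C ν κ₀ α κ')
    (IHb : ∀ κ' : Cardinal.{u}, ν ≤ κ' → κ' < κ → ExtAll C ν κ₀ α κ')
    {T : Type u} [Ring T] [Nontrivial T] (hT : C T) (hp : Pr T) (hR : Rk ν κ₀ α T)
    (hn : ¬ RightPrimitive T) {θ : Cardinal.{u}} (hθν : ν ≤ θ) (hθκ : θ < κ) {Y1 : Set T}
    (hY1 : Proper Y1) (hY1c : #Y1 ≤ θ) (hL : LargePr (Order.succ θ) Y1) {G0 : Set T}
    (hG0 : ∀ g ∈ G0, g ≠ 0) (hG0c : #G0 ≤ κ)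
    (hS : ∃ S : ν.ord.ToType → Set T, (∀ i, #(S i) < κ) ∧ κ ≤ #(⋃ i, S i)) :
    ∃ Y' : Set T, Y1 ⊆ Y' ∧ Proper Y' ∧ Treats Y' G0 ∧ #Y' ≤ κ := by
  classical
  obtain ⟨hJ0, hwit⟩ := (hC.ok T hT).self hp hn
  have hθ0 : ℵ₀ ≤ θ := hν.trans hθν
  have hκ0 : ℵ₀ ≤ κ := hθ0.trans hθκ.le
  -- the least index cardinal
  obtain ⟨μ, ⟨S, hS1, hS2⟩, hmin⟩ := WellFounded.has_min (r := (· < ·)) (wellFounded_lt)
    {μ : Cardinal.{u} | ∃ S : μ.ord.ToType → Set T, (∀ i, #(S i) < κ) ∧ κ ≤ #(⋃ i, S i)}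
    ⟨ν, hS⟩
  have hμν : μ ≤ ν := not_lt.mp (hmin ν hS)
  have hJ : #μ.ord.ToType = μ := mk_ord_toType μ
  have hJθ : #μ.ord.ToType ≤ θ := by
    rw [hJ]
    exact hμν.trans hθν
  have hseg : ∀ i : μ.ord.ToType, #(⋃ k : Set.Iio i, S k) < κ := by
    intro i
    by_contra h
    have hlt : #(Set.Iio i) < μ := by simpa using mk_Iio_lt i
    obtain ⟨e⟩ : Nonempty ((#(Set.Iio i)).ord.ToType ≃ Set.Iio i) :=
      Cardinal.eq.mp (mk_ord_toType _)
    refine hmin (#(Set.Iio i)) ⟨fun j => S (e j), fun j => hS1 _, ?_⟩ hlt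
    rw [e.surjective.iUnion_comp (fun k : Set.Iio i => S k)]
    exact not_lt.mp h
  have hneJ : Nonempty μ.ord.ToType := by
    by_contra h
    rw [not_nonempty_iff] at h
    rw [Set.iUnion_of_empty, mk_eq_zero, nonpos_iff_eq_zero] at hS2
    rw [hS2] at hθκ
    exact not_lt_zero hθκ
  let W : μ.ord.ToType → Set T := fun i => ⋃ k : Set.Iio i, S k
  let κm : μ.ord.ToType → Cardinal.{u} := fun i => max θ #(W i)
  let κp : μ.ord.ToType → Cardinal.{u} := fun i => max (κm i) #(S i)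
  have hκm : ∀ i, κm i < κ := fun i => max_lt hθκ (hseg i)
  have hκp : ∀ i, κp i < κ := fun i => max_lt (hκm i) (hS1 i)
  have hθm : ∀ i, θ ≤ κm i := fun i => le_max_left _ _
  have hmp : ∀ i, κm i ≤ κp i := fun i => le_max_left _ _
  have hpm : ∀ j i, j < i → κp j ≤ κm i := by
    intro j i hji
    refine max_le (max_le (hθm i) ?_) ?_
    · refine le_trans (mk_le_mk_of_subset ?_) (le_max_right _ _)
      intro x hx
      obtain ⟨k, hk⟩ := Set.mem_iUnion.mp hx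
      exact Set.mem_iUnion.mpr ⟨⟨k.1, lt_trans k.2 hji⟩, hk⟩
    · refine le_trans (mk_le_mk_of_subset ?_) (le_max_right _ _)
      intro x hx
      exact Set.mem_iUnion.mpr ⟨⟨j, hji⟩, hx⟩
  have hm0 : ∀ i, ℵ₀ ≤ κm i := fun i => hθ0.trans (hθm i)
  have hp0 : ∀ i, ℵ₀ ≤ κp i := fun i => (hm0 i).trans (hmp i)
  -- sets with room
  have hYc : ∀ i, ∃ Y : Set T, Proper Y ∧ #Y ≤ κm i ∧ LargePr (Order.succ (κm i)) Y := by
    intro i
    obtain ⟨Y, h1, h2, h3⟩ := chain hC hν hα hT hp hR hn (θ := Order.succ (κm i))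
      ((hθν.trans (hθm i)).trans_lt (Order.lt_succ _))
      ((Order.succ_le_of_lt (hκm i)).trans hκκ)
      (fun S hS => (mk_iUnion_le_of (hm0 i) (by
        rw [mk_ord_toType]
        exact hθν.trans (hθm i)) S fun n => Order.lt_succ_iff.mp (hS n)).trans_lt
        (Order.lt_succ _))
      (fun κ' h1 h2 => IHa κ' h1 ((Order.lt_succ_iff.mp h2).trans_lt (hκm i)))
    exact ⟨Y, h1, Order.lt_succ_iff.mp h2, h3⟩
  choose Yc hYc1 hYc2 hYc3 using hYc
  let E : μ.ord.ToType → Set T := fun i => Wit hwit (Yc i)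
  have hEc : ∀ i, #(E i) ≤ κm i := fun i => (mk_wit_le hwit _).trans (max_le (hm0 i) (hYc2 i))
  have hE0 : ∀ i, ∀ x ∈ E i, x ≠ 0 := fun i x hx => ne_zero_of_mem_wit hwit (hYc1 i) hx
  -- splitting
  have hρ : ∀ i, ∃ ρ : T → μ.ord.ToType, ((∃ j, j < i) → ∀ x, ρ x < i) ∧
      ∀ j, j < i → #{x | x ∈ E i ∧ ρ x = j} ≤ κp j := by
    intro i
    by_cases hi : ∃ j, j < i
    · obtain ⟨j0, hj0⟩ := hi
      have : Nonempty (Set.Iio i) := ⟨⟨j0, hj0⟩⟩
      obtain ⟨ρ, hρ⟩ := exists_split (fun k : Set.Iio i => S k) θ (E i) (hEc i)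
      refine ⟨fun x => (ρ x).1, fun _ x => (ρ x).2, fun j hj => ?_⟩
      refine le_trans (mk_le_mk_of_subset ?_) ((hρ ⟨j, hj⟩).trans
        (max_le ((hθm j).trans (hmp j)) (le_max_right _ _)))
      rintro x ⟨hx, hxj⟩
      exact ⟨hx, Subtype.ext hxj⟩
    · exact ⟨fun _ => i, fun h => absurd h hi, fun j hj => absurd ⟨j, hj⟩ hi⟩
  choose ρ hρ1 hρ2 using hρ
  obtain ⟨ρ0, hρ0⟩ := exists_split S θ G0 (hG0c.trans (hS2.trans (le_max_right _ _)))
  let H : μ.ord.ToType → Set T := fun j => {x | x ∈ G0 ∧ ρ0 x = j} ∪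
    ⋃ i, (if j < i then {x | x ∈ E i ∧ ρ i x = j} else ∅)
  have hHc : ∀ j, #(H j) ≤ κp j := by
    intro j
    refine (mk_union_le _ _).trans (add_le_of_le (hp0 j) ?_ ?_)
    · exact (hρ0 j).trans (max_le ((hθm j).trans (hmp j)) (le_max_right _ _))
    · refine mk_iUnion_le_of (hp0 j) (hJθ.trans ((hθm j).trans (hmp j))) _ fun i => ?_
      split_ifs with hji
      · exact hρ2 i j hji
      · rw [mk_eq_zero]
        exact zero_le
  have hH0 : ∀ j, ∀ x ∈ H j, x ≠ 0 := by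
    rintro j x (⟨hx, -⟩ | hx)
    · exact hG0 x hx
    · obtain ⟨i, hi⟩ := Set.mem_iUnion.mp hx
      split_ifs at hi with hji
      · exact hE0 i x hi.1
      · exact absurd hi (Set.notMem_empty x)
  -- the recursion
  let Ys : μ.ord.ToType → Set T := IsWellFounded.fix (· < ·) fun i ih =>
    if h : ∃ Y : Set T, {t | t ∈ Y1 ∨ ∃ j, ∃ h : j < i, t ∈ ih j h} ⊆ Y ∧ Proper Y ∧
      Treats Y (H i) ∧ #Y ≤ κp i then h.choose else ∅
  let V : μ.ord.ToType → Set T := fun i => {t | t ∈ Y1 ∨ ∃ j, ∃ _ : j < i, t ∈ Ys j}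
  have hYs : ∀ i, Ys i = if h : ∃ Y : Set T, V i ⊆ Y ∧ Proper Y ∧
      Treats Y (H i) ∧ #Y ≤ κp i then h.choose else ∅ := fun i =>
    IsWellFounded.fix_eq (· < ·) _ i
  have hYs' : ∀ i, (∃ Y : Set T, V i ⊆ Y ∧ Proper Y ∧ Treats Y (H i) ∧ #Y ≤ κp i) →
      V i ⊆ Ys i ∧ Proper (Ys i) ∧ Treats (Ys i) (H i) ∧ #(Ys i) ≤ κp i := by
    intro i hi
    rw [hYs i, dif_pos hi]
    exact hi.choose_spec
  clear_value Ys
  have hmain : ∀ i, V i ⊆ Ys i ∧ Proper (Ys i) ∧ Treats (Ys i) (H i) ∧ #(Ys i) ≤ κp i := by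
    intro i
    induction i using WellFoundedLT.induction with
    | ind i ih =>
      apply hYs'
      have hVp : Proper (V i) := by
        refine proper_of_finite fun s hs => ?_
        have hs' : ∀ t ∈ s, t ∈ Y1 ∨ ∃ j ∈ Set.Iio i, t ∈ Ys j := by
          intro t ht
          rcases hs ht with h | ⟨j, hj, h⟩
          · exact Or.inl h
          · exact Or.inr ⟨j, hj, h⟩
        rcases finite_sub (Set.Iio i) Y1 Ys (fun j hj x hx => (ih j hj).1 (Or.inl hx))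
          (fun j _ k hk hjk x hx => (ih k hk).1 (Or.inr ⟨j, hjk, hx⟩)) s hs' with h | ⟨j, hj, h⟩
        · exact Proper.mono h hY1
        · exact Proper.mono h (ih j hj).2.1
      have hVc : #(V i) ≤ κm i := by
        have hsub : V i ⊆ Y1 ∪ ⋃ j, (if j < i then Ys j else ∅) := by
          rintro x (hx | ⟨j, hj, hx⟩)
          · exact Or.inl hx
          · refine Or.inr (Set.mem_iUnion.mpr ⟨j, ?_⟩)
            rw [if_pos hj]
            exact hx
        refine (mk_le_mk_of_subset hsub).trans ((mk_union_le _ _).trans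
          (add_le_of_le (hm0 i) (hY1c.trans (hθm i)) ?_))
        refine mk_iUnion_le_of (hm0 i) (hJθ.trans (hθm i)) _ fun j => ?_
        split_ifs with hj
        · exact (ih j hj).2.2.2.trans (hpm j i hj)
        · rw [mk_eq_zero]
          exact zero_le
      have hVL : LargePr (Order.succ (κm i)) (V i) := by
        by_cases hi : ∃ j, j < i
        · refine (hYc3 i).of_treats hwit ((hm0 i).trans_lt (Order.lt_succ _)) ?_ hVp
            (hVc.trans_lt (Order.lt_succ _))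
          intro x hx
          have hji : ρ i x < i := hρ1 i hi x
          have hxH : x ∈ H (ρ i x) := by
            refine Or.inr (Set.mem_iUnion.mpr ⟨i, ?_⟩)
            rw [if_pos hji]
            exact ⟨hx, rfl⟩
          obtain ⟨f, hf, hf1⟩ := (ih _ hji).2.2.1 x hxH
          exact ⟨f, Or.inr ⟨_, hji, hf⟩, hf1⟩
        · have hW : W i = ∅ := by
            refine Set.eq_empty_of_forall_notMem fun x hx => ?_
            obtain ⟨k, -⟩ := Set.mem_iUnion.mp hx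
            exact hi ⟨k.1, k.2⟩
          have h1 : κm i = θ := by
            change max θ #(W i) = θ
            rw [hW, mk_eq_zero]
            exact max_eq_left zero_le
          have h2 : V i = Y1 := by
            refine Set.Subset.antisymm ?_ fun x hx => Or.inl hx
            rintro x (hx | ⟨j, hj, -⟩)
            · exact hx
            · exact absurd ⟨j, hj⟩ hi
          rw [h1, h2]
          exact hL
      exact IHb (κp i) ((hθν.trans (hθm i)).trans (hmp i)) (hκp i) T hT hp hR hn (κm i)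
        (hθν.trans (hθm i)) (hmp i) (V i) hVp hVc hVL (H i) (hH0 i) (hHc i)
  refine ⟨{t | t ∈ Y1 ∨ ∃ j, t ∈ Ys j}, fun x hx => Or.inl hx, ?_, ?_, ?_⟩
  · refine proper_of_finite fun s hs => ?_
    have hs' : ∀ t ∈ s, t ∈ Y1 ∨ ∃ j ∈ Set.univ, t ∈ Ys j := by
      intro t ht
      rcases hs ht with h | ⟨j, h⟩
      · exact Or.inl h
      · exact Or.inr ⟨j, trivial, h⟩
    rcases finite_sub Set.univ Y1 Ys (fun j _ x hx => (hmain j).1 (Or.inl hx))
      (fun j _ k _ hjk x hx => (hmain k).1 (Or.inr ⟨j, hjk, hx⟩)) s hs' with h | ⟨j, -, h⟩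
    · exact Proper.mono h hY1
    · exact Proper.mono h (hmain j).2.1
  · intro x hx
    obtain ⟨f, hf, hf1⟩ := (hmain (ρ0 x)).2.2.1 x (Or.inl ⟨hx, rfl⟩)
    exact ⟨f, Or.inr ⟨_, hf⟩, hf1⟩
  · have hsub : {t | t ∈ Y1 ∨ ∃ j, t ∈ Ys j} ⊆ Y1 ∪ ⋃ j, Ys j := by
      rintro x (hx | ⟨j, hx⟩)
      · exact Or.inl hx
      · exact Or.inr (Set.mem_iUnion.mpr ⟨j, hx⟩)
    refine (mk_le_mk_of_subset hsub).trans ((mk_union_le _ _).trans
      (add_le_of_le hκ0 (hY1c.trans hθκ.le) ?_))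
    exact mk_iUnion_le_of hκ0 (hJθ.trans hθκ.le) _ fun j => (hmain j).2.2.2.trans (hκp j).le

theorem main_induction {C : ∀ (T : Type u) [Ring T], Prop} (hC : Good C)
    {ν κ₀ : Cardinal.{u}} (hν : ℵ₀ ≤ ν) {α : Type u} [LinearOrder α] [WellFoundedLT α]
    (hα : #α ≤ ν) (hbase : AllTreat C ν κ₀ α ν) (κ : Cardinal.{u}) :
    ν ≤ κ → κ ≤ κ₀ → AllTreat C ν κ₀ α κ ∧ ExtAll C ν κ₀ α κ := by
  induction κ using WellFoundedLT.induction with
  | ind κ IH =>
  intro hνκ hκκ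
  have IHa : ∀ κ' : Cardinal.{u}, ν ≤ κ' → κ' < κ → AllTreat C ν κ₀ α κ' := fun κ' h1 h2 =>
    (IH κ' h2 h1 (h2.le.trans hκκ)).1
  have IHb : ∀ κ' : Cardinal.{u}, ν ≤ κ' → κ' < κ → ExtAll C ν κ₀ α κ' := fun κ' h1 h2 =>
    (IH κ' h2 h1 (h2.le.trans hκκ)).2
  have hκ0 : ℵ₀ ≤ κ := hν.trans hνκ
  have hext : ExtAll C ν κ₀ α κ := by
    intro T _ _ hT hp hR hn θ1 h1 hle Y1 hY1 hY1c hL G0 hG0 hG0c
    obtain ⟨hJ, hwit⟩ := (hC.ok T hT).self hp hn
    have h10 : ℵ₀ ≤ θ1 := hν.trans h1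
    rcases hle.eq_or_lt with rfl | hlt
    · obtain ⟨Y', ha, hb, hc, hd⟩ := recursion hwit (h10.trans_lt (Order.lt_succ θ1)) hY1
        (hY1c.trans_lt (Order.lt_succ _)) hL G0 (hG0c.trans (Order.le_succ _)) hG0
      exact ⟨Y', ha, hb, hc, hd.trans (add_le_of_le h10 hY1c hG0c)⟩
    · have hκ' : ν < κ := h1.trans_lt hlt
      by_cases hSC : ∀ S : ν.ord.ToType → Set T, (∀ n, #(S n) < κ) → #(⋃ n, S n) < κ
      · obtain ⟨Y, hY, hYc, hYL⟩ := chain hC hν hα hT hp hR hn hκ' hκκ hSC IHa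
        have hlt' : max θ1 #Y < κ := max_lt hlt hYc
        obtain ⟨Y', ha, hb, hc, hd⟩ := IHb (max θ1 #Y) (h1.trans (le_max_left _ _))
          hlt' T hT hp hR hn θ1 h1 (le_max_left _ _) Y1 hY1 hY1c hL (Wit hwit Y)
          (fun g hg => ne_zero_of_mem_wit hwit hY hg) ((mk_wit_le hwit Y).trans
            (max_le (h10.trans (le_max_left _ _)) (le_max_right _ _)))
        have hd' : #Y' < κ := hd.trans_lt hlt'
        have hL' : LargePr κ Y' := hYL.of_treats hwit (hν.trans_lt hκ') hc hb hd'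
        obtain ⟨Y2, ha2, hb2, hc2, hd2⟩ := recursion hwit (hν.trans_lt hκ') hb hd' hL' G0
          hG0c hG0
        exact ⟨Y2, ha.trans ha2, hb2, hc2, hd2.trans (add_le_of_le hκ0 hd'.le hG0c)⟩
      · push Not at hSC
        exact ext_singular hC hν hα hκκ IHa IHb hT hp hR hn h1 hlt hY1 hY1c hL hG0 hG0c hSC
  refine ⟨?_, hext⟩
  rcases hνκ.eq_or_lt with rfl | hκ'
  · exact hbase
  · intro T _ _ hT hp hR hn G hG hGc
    obtain ⟨Y, hY, hYc, hYL⟩ := chain hC hν hα hT hp hR hn (θ := Order.succ ν)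
      (Order.lt_succ _) ((Order.succ_le_of_lt hκ').trans hκκ)
      (fun S hS => (mk_iUnion_le_of hν (mk_ord_toType ν).le S fun n =>
        Order.lt_succ_iff.mp (hS n)).trans_lt (Order.lt_succ _))
      (fun κ' h1 h2 => IHa κ' h1 ((Order.lt_succ_iff.mp h2).trans_lt hκ'))
    obtain ⟨Y', -, hb, hc, hd⟩ := hext T hT hp hR hn ν le_rfl hνκ Y hY
      (Order.lt_succ_iff.mp hYc) hYL G hG hGc
    exact ⟨Y', hb, hc, hd⟩

/-- The main theorem with base `ν`. -/
theorem primitive_of_rk {C : ∀ (T : Type u) [Ring T], Prop} (hC : Good C)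
    {ν : Cardinal.{u}} (hν : ℵ₀ ≤ ν) (α : Type u) [LinearOrder α] [WellFoundedLT α]
    (hα : #α ≤ ν) (hbase : ∀ κ₀, AllTreat C ν κ₀ α ν)
    (T : Type u) [Ring T] [Nontrivial T] (hT : C T) (hp : Pr T) (X : Set T) (hX : Coin X)
    (hR : Rk ν #X α T) : RightPrimitive T := by
  by_contra hn
  have hall : TreatAll T (max ν #X) := by
    rcases le_total #X ν with h | h
    · rw [max_eq_left h]
      refine hbase 0 T hT hp ?_ hn
      obtain ⟨d, -⟩ := hR
      refine ⟨d, fun P _ hP => ?_⟩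
      obtain ⟨U, _, f, -, -, -, ⟨X', hX', -⟩, -⟩ := hP
      exact absurd hX' not_lt_zero
    · rw [max_eq_right h]
      exact (main_induction hC hν hα (hbase #X) #X h le_rfl).1 T hT hp hR hn
  obtain ⟨Y, hY, hYG, -⟩ := hall {x | x ∈ X ∧ x ≠ 0} (fun g hg => hg.2)
    ((mk_le_mk_of_subset fun x hx => hx.1).trans (le_max_right _ _))
  refine hn (rightPrimitive_of_treats hY hYG fun I hI => ?_)
  obtain ⟨x, hx, hx0, hxI⟩ := hX I hI
  exact ⟨x, ⟨hx, hx0⟩, hxI⟩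

/-- Countable sets can be treated. -/
theorem allTreat_aleph0 {C : ∀ (T : Type u) [Ring T], Prop} (hC : Good C)
    (ν κ₀ : Cardinal.{u}) (α : Type u) [LinearOrder α] : AllTreat C ν κ₀ α ℵ₀ := by
  classical
  intro T _ _ hT hp hR hn G hG hGc
  have hok : Ok T := hC.ok T hT
  obtain ⟨hJ, hwit⟩ := hok.self hp hn
  obtain ⟨F, hF1, hF2⟩ := exists_ops hp hok.1 hJ hn
  obtain ⟨E, hGE, hE1, hE2, hEc⟩ := exists_closed_set (fun g : T => g ≠ 0) (insert 1 G) F (by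
    rintro b (rfl | hb)
    · exact one_ne_zero
    · exact hG b hb) hF1
  have hcard : #E ≤ ℵ₀ := by
    refine hEc.trans (max_le le_rfl (mk_insert_le.trans ?_))
    exact add_le_of_le le_rfl hGc one_lt_aleph0.le
  have h1E : (1 : T) ∈ E := hGE (Or.inl rfl)
  obtain ⟨w, -, hw⟩ := exists_maxAv_ge E ⊥ (fun e he h0 => hE1 e he (by
    rwa [TwoSidedIdeal.mem_bot] at h0))
  obtain ⟨hpw, hnw, hco, -⟩ := hF2 E ⟨hE1, hE2⟩ ⟨1, h1E⟩ w hw
  have hctb : E.Countable := by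
    rw [← Cardinal.le_aleph0_iff_set_countable]
    exact hcard
  obtain ⟨g, hg⟩ := hctb.exists_eq_range ⟨1, h1E⟩
  have hwA : WeaklyRegular w.ringCon.Quotient :=
    weaklyRegular_of_surjective w.ringCon.mk' w.ringCon.mk'_surjective hok.1
  have hprim : RightPrimitive w.ringCon.Quotient := by
    refine primitive_of_coinitial hwA hpw
      (fun n => TwoSidedIdeal.span {w.ringCon.mk' (g n)}) ?_ ?_
    · intro n h0
      have h1 : w.ringCon.mk' (g n) ∈ TwoSidedIdeal.span {w.ringCon.mk' (g n)} :=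
        TwoSidedIdeal.subset_span rfl
      rw [h0, TwoSidedIdeal.mem_bot, mk'_eq_zero] at h1
      exact hw.1 (g n) (by rw [hg]; exact ⟨n, rfl⟩) h1
    · intro I hI
      obtain ⟨c, hc, hcI⟩ := hco I hI
      rw [hg] at hc
      obtain ⟨n, rfl⟩ := hc
      refine ⟨n, ?_⟩
      rw [TwoSidedIdeal.span_le]
      simpa using hcI
  obtain ⟨M, hM, hMf⟩ := exists_coatom_of_primitive w hprim
  choose! f hf1 hf2 using hMf
  refine ⟨f '' E, proper_of_coatom hM ?_, ?_, mk_image_le.trans hcard⟩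
  · rintro _ ⟨e, he, rfl⟩
    exact hf1 e (hw.1 e he)
  · intro x hx
    have hxE : x ∈ E := hGE (Or.inr hx)
    exact ⟨f x, ⟨x, hxE, rfl⟩, hf2 x (hw.1 x hxE)⟩

end Pool.Agent.VRing6.Nu
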