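import Pool.Agent.VRing6.Nu.Main
import Pool.Agent.VRing6.Rank

/-!
# Factor rings by two-sided ideals and surjective homomorphisms (MP_2175e6_al, helper6)
-/

open MulOpposite Pool.Agent.VRing Cardinal

namespace Pool.Agent.VRing6.Nu

open Pool.Agent.VRing23 Pool.Agent.VRing6.Room

universe u

variable {T : Type u} [Ring T]

lemma exists_hom_of_ker {P : TwoSidedIdeal T} {U : Type u} [Ring U] (f : T →+* U)
    (hf : Function.Surjective f) (hP : ∀ x, x ∈ P ↔ f x = 0) :
    ∃ g : P.ringCon.Quotient →+* U, Function.Surjective g ∧ Function.Injective g := by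
  have hle : P.ringCon ≤ RingCon.ker f := by
    intro x y hxy
    change f x = f y
    rw [TwoSidedIdeal.rel_iff, hP, map_sub, sub_eq_zero] at hxy
    exact hxy
  refine ⟨P.ringCon.lift f hle, ?_, ?_⟩
  · intro y
    obtain ⟨x, rfl⟩ := hf y
    exact ⟨P.ringCon.mk' x, RingCon.lift_mk' hle x⟩
  · rw [injective_iff_map_eq_zero]
    intro q hq
    obtain ⟨x, rfl⟩ := P.ringCon.mk'_surjective q
    have h1 : P.ringCon.lift f hle (P.ringCon.mk' x) = f x := RingCon.lift_mk' hle x
    rw [h1, ← hP] at hq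
    exact (mk'_eq_zero P x).mpr hq

lemma goodFactor_of_bijective {A B : Type u} [Ring A] [Ring B] (g : A →+* B)
    (hs : Function.Surjective g) (hi : Function.Injective g) (h : GoodFactor A) :
    GoodFactor B := by
  obtain ⟨H, hH0, hH⟩ := h
  let e : A ≃+* B := RingEquiv.ofBijective g ⟨hi, hs⟩
  refine ⟨H.comap (e.symm : B →+* A), comap_ne_bot _ e.symm.surjective hH0, fun b hb hst => ?_⟩
  rw [TwoSidedIdeal.mem_comap] at hb
  refine hH _ hb ?_
  obtain ⟨x, y, h1, h2, h3⟩ := hst
  refine ⟨fun n => e.symm (x n), fun n => e.symm (y n), fun n => ?_, fun n => ?_,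
    fun m n hmn => ?_⟩
  · obtain ⟨r, hr⟩ := h1 n
    refine ⟨e.symm r, ?_⟩
    change e.symm (x n) = e.symm r * e.symm b
    rw [hr, map_mul]
  · change e.symm (x n) * e.symm (y n) ≠ 0
    rw [← map_mul]
    intro h0
    apply h2 n
    rw [← map_zero e.symm] at h0
    exact e.symm.injective h0
  · change e.symm (x m) * e.symm (y n) = 0
    rw [← map_mul, h3 m n hmn, map_zero]

lemma coin_of_bijective {A B : Type u} [Ring A] [Ring B] (g : A →+* B)
    (hs : Function.Surjective g) (hi : Function.Injective g) {κ : Cardinal.{u}}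
    (h : ∃ X : Set B, #X < κ ∧ Coin X) : ∃ X : Set A, #X < κ ∧ Coin X := by
  obtain ⟨X, hX, hXc⟩ := h
  let e : A ≃+* B := RingEquiv.ofBijective g ⟨hi, hs⟩
  refine ⟨(fun b => e.symm b) '' X, mk_image_le.trans_lt hX, fun I hI => ?_⟩
  obtain ⟨x, hx, hx0, hxI⟩ := hXc (I.comap (e.symm : B →+* A))
    (comap_ne_bot _ e.symm.surjective hI)
  rw [TwoSidedIdeal.mem_comap] at hxI
  refine ⟨_, ⟨x, hx, rfl⟩, ?_, hxI⟩
  intro h0
  apply hx0
  have h1 : e.symm x = e.symm 0 := by rw [map_zero]; exact h0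
  exact e.symm.injective h1

end Pool.Agent.VRing6.Nu
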