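import Pool.Agent.VRing6.Nu.Closed

/-!
# The chain lemma with base cardinal `ν` (MP_2175e6_al, helper6)
-/

open MulOpposite Pool.Agent.VRing Cardinal

namespace Pool.Agent.VRing6.Nu

open Pool.Agent.VRing23 Pool.Agent.VRing6.Room

universe u

/-- every set of at most `κ` nonzero elements is treated by a proper set of at most `κ` elements -/
def TreatAll (T : Type u) [Ring T] (κ : Cardinal.{u}) : Prop :=
  ∀ G : Set T, (∀ g ∈ G, g ≠ 0) → #G ≤ κ → ∃ Y : Set T, Proper Y ∧ Treats Y G ∧ #Y ≤ κ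

/-- `TreatAll` for all prime rings of the class `C` satisfying the rank condition which are not
right primitive -/
def AllTreat (C : ∀ (T : Type u) [Ring T], Prop) (ν κ₀ : Cardinal.{u}) (α : Type u)
    [LinearOrder α] (κ : Cardinal.{u}) : Prop :=
  ∀ (T : Type u) [Ring T] [Nontrivial T], C T → Pr T → Rk ν κ₀ α T → ¬ RightPrimitive T →
    TreatAll T κ

/-- classes of rings closed under factor rings and contained in `Ok` -/
structure Good (C : ∀ (T : Type u) [Ring T], Prop) : Prop where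
  surj : ∀ (T U : Type u) [Ring T] [Ring U] (f : T →+* U), Function.Surjective f → C T → C U
  ok : ∀ (T : Type u) [Ring T], C T → Ok T

variable {T : Type u} [Ring T]

lemma prim_of_allTreat {C : ∀ (T : Type u) [Ring T], Prop} (hC : Good C)
    {ν κ₀ : Cardinal.{u}} {α : Type u} [LinearOrder α] (hT : C T) (hR : Rk ν κ₀ α T)
    {F : ℕ → T → T → T}
    (hF2 : ∀ E : Set T, Cl F E → E.Nonempty → ∀ A : TwoSidedIdeal T, MaxAv E A →
        Pr A.ringCon.Quotient ∧ Nontrivial A.ringCon.Quotient ∧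
        (∀ I : TwoSidedIdeal A.ringCon.Quotient, I ≠ ⊥ → ∃ g ∈ E, A.ringCon.mk' g ∈ I) ∧
        (∀ g ∈ E, Stair (A.ringCon.mk' g)))
    {θ : Cardinal.{u}} (hθ : ν < θ)
    (hall : ∀ κ : Cardinal.{u}, ν ≤ κ → κ < θ → AllTreat C ν κ₀ α κ)
    {E : Set T} (hE : Cl F E) (hEne : E.Nonempty) (hEc : #E < θ) {w : TwoSidedIdeal T}
    (hw : MaxAv E w) : RightPrimitive w.ringCon.Quotient := by
  obtain ⟨hpw, hnw, hco, -⟩ := hF2 E hE hEne w hw
  by_contra hn
  have hs := w.ringCon.mk'_surjective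
  obtain ⟨Y, hY, hYG, -⟩ := hall (max ν #E) (le_max_left _ _) (max_lt hθ hEc)
    w.ringCon.Quotient (hC.surj _ _ _ hs hT) hpw (hR.of_surjective _ hs) hn
    (w.ringCon.mk' '' E) (by
      rintro _ ⟨e, he, rfl⟩
      rw [Ne, mk'_eq_zero]
      exact hw.1 e he) (mk_image_le.trans (le_max_right _ _))
  refine hn (rightPrimitive_of_treats hY hYG fun I hI => ?_)
  obtain ⟨g, hg, hgI⟩ := hco I hI
  exact ⟨_, ⟨g, hg, rfl⟩, hgI⟩

theorem chain {C : ∀ (T : Type u) [Ring T], Prop} (hC : Good C) {ν κ₀ : Cardinal.{u}}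
    (hν : ℵ₀ ≤ ν) {α : Type u} [LinearOrder α] [WellFoundedLT α] (hα : #α ≤ ν) [Nontrivial T]
    (hT : C T) (hp : Pr T) (hR : Rk ν κ₀ α T) (hn : ¬ RightPrimitive T)
    {θ : Cardinal.{u}} (hθ : ν < θ) (hθκ : θ ≤ κ₀)
    (hSC : ∀ S : ν.ord.ToType → Set T, (∀ n, #(S n) < θ) → #(⋃ n, S n) < θ)
    (hall : ∀ κ : Cardinal.{u}, ν ≤ κ → κ < θ → AllTreat C ν κ₀ α κ) :
    ∃ Y : Set T, Proper Y ∧ #Y < θ ∧ LargePr θ Y := by
  classical
  by_contra hcon
  have hok : Ok T := hC.ok T hT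
  obtain ⟨hJ, hwit⟩ := hok.self hp hn
  have hθ0 : ℵ₀ < θ := hν.trans_lt hθ
  have hcov : ∀ E : Set T, (∀ e ∈ E, e ≠ 0) → #E < θ → ∃ Z : Set T, #Z < θ ∧
      (∀ z ∈ Z, z ≠ 0) ∧ ∀ A, MaxAv E A → ∃ z ∈ Z, z ∈ A := by
    intro E hE hEc
    by_contra h
    have hL : Large θ E := by
      intro Z hZ hZ0
      by_contra h2
      push Not at h2
      exact h ⟨Z, hZ, hZ0, h2⟩
    obtain ⟨Y, hY, hYE, hYc⟩ := hall (max ν #E) (le_max_left _ _) (max_lt hθ hEc) T hT hp hR
      hn E hE (le_max_right _ _)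
    have hYc' : #Y < θ := hYc.trans_lt (max_lt hθ hEc)
    exact hcon ⟨Y, hY, hYc', hL.of_treats hwit hθ0 hYE hY hYc'⟩
  choose! Z hZ1 hZ2 hZ3 using hcov
  obtain ⟨F, hF1, hF2⟩ := exists_ops hp hok.1 hJ hn
  have hbad : ∀ E : Set T, Cl F E → E.Nonempty → #E < θ → ∀ w, MaxAv E w → Bad κ₀ w := by
    intro E hE hEne hEc w hw
    exact bad_of_maxAv hF2 hE hEne (hEc.trans_le hθκ) hw
      (prim_of_allTreat hC hT hR hF2 hθ hall hE hEne hEc hw)
  obtain ⟨d, hd⟩ := hR
  -- the index set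
  have hι : #ν.ord.ToType = ν := mk_ord_toType ν
  have hinit : ∀ i : ν.ord.ToType, #(Set.Iio i) < ν := fun i => by simpa using mk_Iio_lt i
  have hnomax : NoMaxOrder ν.ord.ToType := noMaxOrder hν
  have hne : Nonempty ν.ord.ToType := by
    rw [← mk_ne_zero_iff, hι]
    exact (aleph0_pos.trans_le hν).ne'
  obtain ⟨φ⟩ : Nonempty (ν.ord.ToType ≃ ν.ord.ToType × ν.ord.ToType) := by
    rw [← Cardinal.eq, mk_prod, lift_id, hι, mul_eq_self hν]
  -- one round
  have hstep : ∀ I : Set α, (∀ γ ∈ I, ∀ E : Set T, (∀ e ∈ E, e ≠ 0) → E.Nonempty → #E < θ →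
      ∃ E' : Set T, E ⊆ E' ∧ Cl F E' ∧ #E' < θ ∧ ∀ w, MaxAv E' w → γ ≤ d w) →
      ∀ E : Set T, (∀ e ∈ E, e ≠ 0) → E.Nonempty → #E < θ →
      ∃ E' : Set T, E ⊆ E' ∧ Cl F E' ∧ #E' < θ ∧ ∀ w, MaxAv E' w → d w ∉ I := by
    intro I hI E hE hEne hEc
    rcases I.eq_empty_or_nonempty with rfl | hIne
    · obtain ⟨E', h1, h2, h3⟩ := exists_cl hF1 hθ0 hE hEc
      exact ⟨E', h1, h2, h3, fun w _ => Set.notMem_empty _⟩
    · obtain ⟨q, hq⟩ : ∃ q : ν.ord.ToType → α, Set.range q = I := by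
        obtain ⟨emb⟩ : Nonempty (I ↪ ν.ord.ToType) := by
          rw [← Cardinal.le_def, hι]
          exact (mk_set_le I).trans hα
        have : Nonempty I := hIne.to_subtype
        refine ⟨fun i => (Function.invFun emb i : I), ?_⟩
        ext γ
        constructor
        · rintro ⟨i, rfl⟩
          exact (Function.invFun emb i).2
        · intro hγ
          refine ⟨emb ⟨γ, hγ⟩, ?_⟩
          change ((Function.invFun emb (emb ⟨γ, hγ⟩) : I) : α) = γ
          rw [Function.leftInverse_invFun emb.injective ⟨γ, hγ⟩]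
      choose! N hN1 hN2 hN3 hN4 using hI
      have heI : ∀ k, q k ∈ I := fun k => by rw [← hq]; exact ⟨k, rfl⟩
      let S : ν.ord.ToType → Set T := IsWellFounded.fix (· < ·) fun i ih =>
        N (q (φ i).1) (({t | t ∈ E ∨ ∃ j, ∃ h : j < i, t ∈ ih j h}) ∪
          Z ({t | t ∈ E ∨ ∃ j, ∃ h : j < i, t ∈ ih j h}))
      let V : ν.ord.ToType → Set T := fun i => {t | t ∈ E ∨ ∃ j, ∃ _ : j < i, t ∈ S j}
      have hSs : ∀ i, S i = N (q (φ i).1) (V i ∪ Z (V i)) := fun i =>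
        IsWellFounded.fix_eq (· < ·) _ i
      clear_value S
      -- invariants
      have hV : ∀ i, (∀ j, j < i → (∀ x ∈ S j, x ≠ 0) ∧ #(S j) < θ) →
          (∀ x ∈ V i, x ≠ 0) ∧ #(V i) < θ := by
        intro i hi
        refine ⟨?_, ?_⟩
        · rintro x (hx | ⟨j, hj, hx⟩)
          · exact hE x hx
          · exact (hi j hj).1 x hx
        · have hsub : V i ⊆ E ∪ ⋃ j, (if j < i then S j else ∅) := by
            rintro x (hx | ⟨j, hj, hx⟩)
            · exact Or.inl hx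
            · refine Or.inr (Set.mem_iUnion.mpr ⟨j, ?_⟩)
              rw [if_pos hj]
              exact hx
          refine (mk_le_mk_of_subset hsub).trans_lt (mk_union_lt hθ0.le hEc (hSC _ fun j => ?_))
          split_ifs with hj
          · exact (hi j hj).2
          · rw [mk_eq_zero]
            exact aleph0_pos.trans hθ0
      have hVne : ∀ i, (V i ∪ Z (V i)).Nonempty := fun i =>
        hEne.mono fun x hx => Or.inl (Or.inl hx)
      have hun : ∀ i, ((∀ x ∈ V i, x ≠ 0) ∧ #(V i) < θ) →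
          (∀ x ∈ V i ∪ Z (V i), x ≠ 0) ∧ #(V i ∪ Z (V i) : Set T) < θ := by
        rintro i ⟨h1, h3⟩
        refine ⟨?_, mk_union_lt hθ0.le h3 (hZ1 _ h1 h3)⟩
        rintro x (hx | hx)
        · exact h1 x hx
        · exact hZ2 _ h1 h3 x hx
      have hinv : ∀ i, (∀ x ∈ S i, x ≠ 0) ∧ #(S i) < θ := by
        intro i
        induction i using WellFoundedLT.induction with
        | ind i ih =>
          obtain ⟨h4, h6⟩ := hun i (hV i ih)
          rw [hSs]
          exact ⟨(hN2 _ (heI _) _ h4 (hVne i) h6).1, hN3 _ (heI _) _ h4 (hVne i) h6⟩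
      have hV' : ∀ i, (∀ x ∈ V i, x ≠ 0) ∧ #(V i) < θ := fun i => hV i fun j _ => hinv j
      have hsub : ∀ i, V i ∪ Z (V i) ⊆ S i := by
        intro i
        rw [hSs]
        exact hN1 _ (heI _) _ (hun i (hV' i)).1 (hVne i) (hun i (hV' i)).2
      have hcl : ∀ i, Cl F (S i) := by
        intro i
        rw [hSs]
        exact hN2 _ (heI _) _ (hun i (hV' i)).1 (hVne i) (hun i (hV' i)).2
      have hgood : ∀ i, ∀ w, MaxAv (S i) w → q (φ i).1 ≤ d w := by
        intro i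
        rw [hSs]
        exact hN4 _ (heI _) _ (hun i (hV' i)).1 (hVne i) (hun i (hV' i)).2
      have hSV : ∀ i j, i < j → S i ⊆ V j := fun i j hij x hx => Or.inr ⟨i, hij, hx⟩
      have hmono : Monotone S := by
        intro i j hij
        rcases hij.eq_or_lt with rfl | hlt
        · exact subset_rfl
        · exact (hSV i j hlt).trans (Set.subset_union_left.trans (hsub j))
      have hclU : Cl F (⋃ i, S i) := by
        refine ⟨?_, ?_⟩
        · intro x hx
          obtain ⟨i, hi⟩ := Set.mem_iUnion.mp hx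
          exact (hinv i).1 x hi
        · intro n g hg g' hg'
          obtain ⟨i, hi⟩ := Set.mem_iUnion.mp hg
          obtain ⟨j, hj⟩ := Set.mem_iUnion.mp hg'
          exact Set.mem_iUnion.mpr ⟨max i j, (hcl _).2 n g (hmono (le_max_left i j) hi) g'
            (hmono (le_max_right i j) hj)⟩
      have hcU : #(⋃ i, S i) < θ := hSC S fun i => (hinv i).2
      obtain ⟨i₀⟩ := hne
      have hES : ∀ i, E ⊆ S i := fun i x hx => hsub i (Or.inl (Or.inl hx))
      have hneU : (⋃ i, S i).Nonempty := hEne.mono fun x hx =>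
        Set.mem_iUnion.mpr ⟨i₀, hES i₀ hx⟩
      refine ⟨⋃ i, S i, fun x hx => Set.mem_iUnion.mpr ⟨i₀, hES i₀ hx⟩, hclU, hcU,
        fun w hw hdI => ?_⟩
      rw [← hq] at hdI
      obtain ⟨k, hk⟩ := hdI
      have hw0 : w ≠ ⊥ := by
        obtain ⟨z, hz, hzw⟩ := hZ3 _ hclU.1 hcU w hw
        intro h0
        rw [h0, TwoSidedIdeal.mem_bot] at hzw
        exact hZ2 _ hclU.1 hcU z hz hzw
      have hsubU : ∀ i, ∀ x ∈ S i, x ∉ w := fun i x hx => hw.1 x (Set.mem_iUnion.mpr ⟨i, hx⟩)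
      -- the family
      have hA : ∀ m, ∃ A : TwoSidedIdeal T, w ≤ A ∧ MaxAv (S (φ.symm (k, m))) A :=
        fun m => exists_maxAv_ge (S (φ.symm (k, m))) w (hsubU (φ.symm (k, m)))
      choose A hwA hA using hA
      have hwA' : ∀ m, w ≠ A m := by
        intro m h
        have hm := hA m
        rw [← h] at hm
        obtain ⟨j, hj⟩ := exists_gt (φ.symm (k, m))
        have hm2 : MaxAv (V j) w := by
          refine ⟨fun x hx => hsubU j x (hsub j (Or.inl hx)), fun B hB => ?_⟩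
          obtain ⟨e, he, heB⟩ := hm.2 B hB
          exact ⟨e, hSV _ _ hj he, heB⟩
        obtain ⟨z, hz, hzw⟩ := hZ3 _ (hV' j).1 (hV' j).2 w hm2
        exact hsubU j z (hsub j (Or.inr hz)) hzw
      have hbA : ∀ m, Bad κ₀ (A m) ∧ w < A m := fun m =>
        ⟨hbad _ (hcl _) (hEne.mono (hES _)) (hinv _).2 _ (hA m),
          lt_of_le_of_ne (hwA m) (hwA' m)⟩
      obtain ⟨m, hm⟩ := hd w hw0 (hbad _ hclU hneU hcU w hw) _ A hι hbA (by
        intro x hx
        obtain ⟨B, hwB, hxB, hB⟩ := exists_ideal_add w x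
        obtain ⟨e0, he0, he0B⟩ := hw.2 B (lt_of_le_of_ne hwB fun h => hx (h ▸ hxB))
        obtain ⟨m0, hm0⟩ := Set.mem_iUnion.mp he0
        have hsub' : ∀ m ∈ {n | x ∈ A n}, φ.symm (k, m) ∈ Set.Iio m0 := by
          intro m hm
          by_contra hlt
          have hle : m0 ≤ φ.symm (k, m) := not_lt.mp hlt
          have hxA : x ∈ A m := hm
          obtain ⟨a, ha, t, ht, hat⟩ := hB e0 he0B
          apply (hA m).1 e0 (hmono hle hm0)
          rw [hat]
          exact (A m).add_mem (hwA m ha) (span_le_of_mem hxA ht)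
        refine lt_of_le_of_lt ?_ (hinit m0)
        refine mk_le_of_injective (f := fun m : {n | x ∈ A n} =>
          (⟨φ.symm (k, m.1), hsub' m.1 m.2⟩ : Set.Iio m0)) ?_
        intro m m' hmm
        have h1 : φ.symm (k, m.1) = φ.symm (k, m'.1) := congrArg Subtype.val hmm
        have h2 := φ.symm.injective h1
        exact Subtype.ext (congrArg Prod.snd h2))
      have h2 := hgood (φ.symm (k, m)) (A m) (hA m)
      rw [φ.apply_symm_apply, hk] at h2
      exact absurd hm (not_lt_of_ge h2)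
  have hatt : ∀ γ : α, ∀ E : Set T, (∀ e ∈ E, e ≠ 0) → E.Nonempty → #E < θ →
      ∃ E' : Set T, E ⊆ E' ∧ Cl F E' ∧ #E' < θ ∧ ∀ w, MaxAv E' w → γ ≤ d w := by
    intro γ
    induction γ using WellFoundedLT.induction with
    | ind γ ih =>
      intro E hE hEne hEc
      obtain ⟨E', h1, h2, h3, h4⟩ := hstep (Set.Iio γ) (fun γ' hγ' => ih γ' hγ') E hE hEne hEc
      exact ⟨E', h1, h2, h3, fun w hw => not_lt.mp (h4 w hw)⟩
  obtain ⟨E', h1, h2, h3, h4⟩ := hstep Set.univ (fun γ _ => hatt γ) {1} (by simp) ⟨1, rfl⟩ (by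
    rw [mk_singleton]
    exact one_lt_aleph0.trans hθ0)
  obtain ⟨w, -, hw⟩ := exists_maxAv_ge E' ⊥ (fun e he h0 => h2.1 e he (by
    rwa [TwoSidedIdeal.mem_bot] at h0))
  exact h4 w hw trivial

end Pool.Agent.VRing6.Nu
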