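import Pool.Agent.VRing6.Room.Recursion

/-!
# Closed sets, their maximal avoiding ideals, and the rank condition (MP_2175e6_al, helper6)

Version with a base cardinal `ν` (here `ν = ℵ₀` or `ν = ℵ₁`).
-/

open MulOpposite Pool.Agent.VRing Cardinal

namespace Pool.Agent.VRing6.Nu

open Pool.Agent.VRing23 Pool.Agent.VRing6.Room

universe u

variable {T : Type u} [Ring T]

/-- closed sets of nonzero elements -/
def Cl (F : ℕ → T → T → T) (E : Set T) : Prop :=
  (∀ e ∈ E, e ≠ 0) ∧ ∀ n, ∀ g ∈ E, ∀ g' ∈ E, F n g g' ∈ E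

/-- In a prime right weakly regular semiprimitive ring which is not right primitive there are
operations such that the ideals maximal with respect to avoiding a closed set give prime factor
rings with ladders. -/
theorem exists_ops (hp : Pr T) (hw : WeaklyRegular T) (hJ : JZero T) (hn : ¬ RightPrimitive T) :
    ∃ F : ℕ → T → T → T, (∀ n g g', g ≠ 0 → g' ≠ 0 → F n g g' ≠ 0) ∧
      ∀ E : Set T, Cl F E → E.Nonempty → ∀ A : TwoSidedIdeal T, MaxAv E A →
        Pr A.ringCon.Quotient ∧ Nontrivial A.ringCon.Quotient ∧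
        (∀ I : TwoSidedIdeal A.ringCon.Quotient, I ≠ ⊥ → ∃ g ∈ E, A.ringCon.mk' g ∈ I) ∧
        (∀ g ∈ E, Stair (A.ringCon.mk' g)) := by
  classical
  have hst : ∀ g : T, g ≠ 0 → ∃ x y : ℕ → T, (∀ n, ∃ r, x n = r * g) ∧ (∀ n, x n * y n ≠ 0) ∧
    ∀ m n, n < m → x m * y n = 0 := fun g hg => exists_stair hp hw hJ hn g hg
  choose! X Y hXY1 hXY2 hXY3 using hst
  have hpr : ∀ g g' : T, g ≠ 0 → g' ≠ 0 → ∃ r, g * r * g' ≠ 0 := by
    intro g g' hg hg'
    by_contra hcon
    push Not at hcon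
    rcases hp g g' hcon with h | h
    · exact hg h
    · exact hg' h
  choose! rr hrr using hpr
  let F : ℕ → T → T → T := fun n g g' =>
    Nat.casesOn n (g * rr g g' * g') (fun k => X g k * Y g k)
  refine ⟨F, ?_, ?_⟩
  · intro n g g' hg hg'
    cases n with
    | zero => exact hrr g g' hg hg'
    | succ k => exact hXY2 g hg k
  · rintro G ⟨hGP, hGF⟩ hGne A ⟨hA1, hA2⟩
    have hco : ∀ I : TwoSidedIdeal A.ringCon.Quotient, I ≠ ⊥ →
        ∃ g ∈ G, A.ringCon.mk' g ∈ I := by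
      intro I hI
      obtain ⟨c, hc, hc0⟩ := exists_mem_ne_zero hI
      obtain ⟨c', rfl⟩ := A.ringCon.mk'_surjective c
      have hlt : A < I.comap A.ringCon.mk' := by
        refine lt_of_le_of_ne ?_ ?_
        · intro x hx
          rw [TwoSidedIdeal.mem_comap, (mk'_eq_zero A x).mpr hx]
          exact I.zero_mem
        · intro h
          apply hc0
          rw [mk'_eq_zero, h, TwoSidedIdeal.mem_comap]
          exact hc
      obtain ⟨g, hg, hgI⟩ := hA2 _ hlt
      exact ⟨g, hg, by simpa [TwoSidedIdeal.mem_comap] using hgI⟩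
    refine ⟨?_, ?_, hco, ?_⟩
    · refine prime_of_ideals fun I J hI hJ => ?_
      obtain ⟨g, hg, hgI⟩ := hco I hI
      obtain ⟨g', hg', hgJ⟩ := hco J hJ
      refine ⟨_, hgI, _, hgJ, A.ringCon.mk' (rr g g'), ?_⟩
      rw [← map_mul, ← map_mul, Ne, mk'_eq_zero]
      exact hA1 _ (hGF 0 g hg g' hg')
    · obtain ⟨b, hb⟩ := hGne
      refine ⟨A.ringCon.mk' b, 0, ?_⟩
      rw [Ne, mk'_eq_zero]
      exact hA1 _ hb
    · intro g hg
      have hg0 := hGP g hg
      refine ⟨fun n => A.ringCon.mk' (X g n), fun n => A.ringCon.mk' (Y g n), fun n => ?_,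
        fun n => ?_, fun m n hnm => ?_⟩
      · obtain ⟨r, hr⟩ := hXY1 g hg0 n
        refine ⟨A.ringCon.mk' r, ?_⟩
        change A.ringCon.mk' (X g n) = _
        rw [hr, map_mul]
      · rw [← map_mul, Ne, mk'_eq_zero]
        exact hA1 _ (hGF (n + 1) g hg g hg)
      · rw [← map_mul, hXY3 g hg0 m n hnm, map_zero]

lemma exists_cl {F : ℕ → T → T → T} (hF : ∀ n g g', g ≠ 0 → g' ≠ 0 → F n g g' ≠ 0)
    {θ : Cardinal.{u}} (hθ : ℵ₀ < θ) {B : Set T} (hB : ∀ b ∈ B, b ≠ 0) (hBc : #B < θ) :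
    ∃ E, B ⊆ E ∧ Cl F E ∧ #E < θ := by
  obtain ⟨G, h1, h2, h3, h4⟩ := exists_closed_set (fun g : T => g ≠ 0) B F hB hF
  exact ⟨G, h1, ⟨h2, h3⟩, h4.trans_lt (max_lt hθ hBc)⟩

/-- `P` is the kernel of a map onto a right primitive ring all of whose nonzero ideals contain
elements with ladders, and which has a coinitial set of fewer than `κ` elements. -/
def Bad (κ : Cardinal.{u}) (P : TwoSidedIdeal T) : Prop :=
  ∃ (U : Type u) (_ : Ring U) (f : T →+* U), Function.Surjective f ∧ RightPrimitive U ∧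
    ¬ GoodFactor U ∧ (∃ X : Set U, #X < κ ∧ Coin X) ∧ ∀ x, x ∈ P ↔ f x = 0

/-- The rank condition. -/
def Rk (ν κ : Cardinal.{u}) (α : Type u) [LinearOrder α] (T : Type u) [Ring T] : Prop :=
  ∃ d : TwoSidedIdeal T → α, ∀ P : TwoSidedIdeal T, P ≠ ⊥ → Bad κ P →
    ∀ (ι : Type u) (Z : ι → TwoSidedIdeal T), #ι = ν → (∀ n, Bad κ (Z n) ∧ P < Z n) →
      (∀ x, x ∉ P → #{n | x ∈ Z n} < ν) → ∃ n, d (Z n) < d P

/-- Right weakly regular rings whose prime factor rings which are not right primitive are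
semiprimitive and have witnesses. -/
def Ok (T : Type u) [Ring T] : Prop :=
  WeaklyRegular T ∧ ∀ (U : Type u) [Ring U] (f : T →+* U), Function.Surjective f →
    Nontrivial U → Pr U → ¬ RightPrimitive U → JZero U ∧ HasWit U

lemma Ok.of_surjective {S : Type u} [Ring S] (f : T →+* S) (hf : Function.Surjective f)
    (h : Ok T) : Ok S :=
  ⟨weaklyRegular_of_surjective f hf h.1, fun U _ g hg => h.2 U (g.comp f) (hg.comp hf)⟩

lemma Ok.self [Nontrivial T] (h : Ok T) (hp : Pr T) (hn : ¬ RightPrimitive T) :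
    JZero T ∧ HasWit T := h.2 T (RingHom.id T) Function.surjective_id inferInstance hp hn

lemma Bad.comap {κ : Cardinal.{u}} {S : Type u} [Ring S] (f : T →+* S)
    (hf : Function.Surjective f) {P : TwoSidedIdeal S} (h : Bad κ P) : Bad κ (P.comap f) := by
  obtain ⟨U, _, g, hg, h1, h2, h3, h4⟩ := h
  refine ⟨U, inferInstance, g.comp f, hg.comp hf, h1, h2, h3, fun x => ?_⟩
  rw [TwoSidedIdeal.mem_comap, h4]
  rfl

lemma comap_lt {S : Type u} [Ring S] (f : T →+* S) (hf : Function.Surjective f)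
    {P Q : TwoSidedIdeal S} (h : P < Q) : P.comap f < Q.comap f := by
  refine lt_of_le_of_ne ?_ ?_
  · intro x hx
    rw [TwoSidedIdeal.mem_comap] at hx ⊢
    exact h.le hx
  · intro h'
    apply h.ne
    ext y
    obtain ⟨x, rfl⟩ := hf y
    have h1 : x ∈ P.comap f ↔ x ∈ Q.comap f := by rw [h']
    rwa [TwoSidedIdeal.mem_comap, TwoSidedIdeal.mem_comap] at h1

lemma comap_ne_bot {S : Type u} [Ring S] (f : T →+* S) (hf : Function.Surjective f)
    {P : TwoSidedIdeal S} (h : P ≠ ⊥) : P.comap f ≠ ⊥ := by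
  obtain ⟨c, hc, hc0⟩ := exists_mem_ne_zero h
  obtain ⟨t, rfl⟩ := hf c
  intro h0
  have h1 : t ∈ P.comap f := by
    rw [TwoSidedIdeal.mem_comap]
    exact hc
  rw [h0, TwoSidedIdeal.mem_bot] at h1
  rw [h1, map_zero] at hc0
  exact hc0 rfl

lemma Rk.of_surjective {ν κ : Cardinal.{u}} {α : Type u} [LinearOrder α] {S : Type u} [Ring S]
    (f : T →+* S) (hf : Function.Surjective f) (h : Rk ν κ α T) : Rk ν κ α S := by
  obtain ⟨d, hd⟩ := h
  refine ⟨fun P => d (P.comap f), fun P hP hbad ι Z hι hZ hconv => ?_⟩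
  refine hd (P.comap f) (comap_ne_bot f hf hP) (hbad.comap f hf) ι (fun n => (Z n).comap f) hι
    (fun n => ⟨(hZ n).1.comap f hf, comap_lt f hf (hZ n).2⟩) ?_
  intro x hx
  rw [TwoSidedIdeal.mem_comap] at hx
  refine (mk_le_mk_of_subset ?_).trans_lt (hconv (f x) hx)
  intro n hn
  have h1 : x ∈ (Z n).comap f := hn
  rw [TwoSidedIdeal.mem_comap] at h1
  exact h1

/-- A maximal ideal avoiding a closed set is bad as soon as its factor ring is primitive. -/
lemma bad_of_maxAv {F : ℕ → T → T → T}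
    (hF2 : ∀ E : Set T, Cl F E → E.Nonempty → ∀ A : TwoSidedIdeal T, MaxAv E A →
        Pr A.ringCon.Quotient ∧ Nontrivial A.ringCon.Quotient ∧
        (∀ I : TwoSidedIdeal A.ringCon.Quotient, I ≠ ⊥ → ∃ g ∈ E, A.ringCon.mk' g ∈ I) ∧
        (∀ g ∈ E, Stair (A.ringCon.mk' g)))
    {κ : Cardinal.{u}} {E : Set T} (hE : Cl F E) (hEne : E.Nonempty) (hEc : #E < κ)
    {w : TwoSidedIdeal T} (hw : MaxAv E w)
    (hprim : RightPrimitive w.ringCon.Quotient) : Bad κ w := by
  obtain ⟨-, -, hco, hst⟩ := hF2 E hE hEne w hw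
  refine ⟨_, inferInstance, w.ringCon.mk', w.ringCon.mk'_surjective, hprim, ?_, ?_, fun x => ?_⟩
  · rintro ⟨H, hH0, hH⟩
    obtain ⟨g, hg, hgH⟩ := hco H hH0
    exact hH _ hgH (hst g hg)
  · refine ⟨w.ringCon.mk' '' E, mk_image_le.trans_lt hEc, fun I hI => ?_⟩
    obtain ⟨g, hg, hgI⟩ := hco I hI
    refine ⟨_, ⟨g, hg, rfl⟩, ?_, hgI⟩
    rw [Ne, mk'_eq_zero]
    exact hw.1 g hg
  · exact (mk'_eq_zero w x).symm

/-- A proper set treating a coinitial set of nonzero elements gives a faithful simple module. -/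
lemma rightPrimitive_of_treats {G Y : Set T} (hY : Proper Y) (hYG : Treats Y G)
    (hco : ∀ I : TwoSidedIdeal T, I ≠ ⊥ → ∃ g ∈ G, g ∈ I) : RightPrimitive T := by
  obtain ⟨M, hM, hYM⟩ := hY.exists_coatom
  refine rightPrimitive_of_coatom M hM fun I hI => ?_
  by_contra hI0
  obtain ⟨g, hg, hgI⟩ := hco I hI0
  obtain ⟨f, hf, h1⟩ := hYG g hg
  have h2 : 1 - f ∈ M := hI _ (span_le_of_mem hgI h1)
  have h3 : (1 : T) ∈ M := by
    have := M.add_mem h2 (hYM hf)
    simpa using this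
  exact (proper_iff.mp (proper_of_coatom hM (Y := (M : Set T)) (le_refl _)))
    (Submodule.subset_span h3)

end Pool.Agent.VRing6.Nu
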